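import Pool.Agent.H93.PG.Targets

/-!
# Power-free shifts (`MP_32ebde_an`), board `pgs_modules`, row LTR
-/

set_option autoImplicit false

open MeasureTheory Filter Topology Finset Pool.Agent.H93.PF Pool.Agent.H93.PG

namespace Pool.Agent.H65.PG

open Classical in
/-- Lemma A -/
theorem richAA (hTRM : T_TRM) (hTRA : T_TRA) {d : ℕ} {m : ℕ → ℕ} (t : Tail d m)
    (P : (n : ℕ) → (Fin n → Fin d) → Prop)
    (hP : ∀ (n k : ℕ) (h : k ≤ n) (w : Fin n → Fin d), P n w → P k fun i => w ⟨i, by omega⟩)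
    (H : ℝ) (hH : 0 < H) (hR : Rich H (fun n => AA t P n 0)) : Rich H (fun n => G0 t P n) := by
  intro ε hε C
  by_contra hcon
  push Not at hcon
  have hmin : 0 < min ε (H / 2) := lt_min hε (by linarith)
  have hmin1 : min ε (H / 2) ≤ ε := min_le_left _ _
  have hmin2 : min ε (H / 2) ≤ H / 2 := min_le_right _ _
  have k1 : ∀ n j, (AA t P n (j + 1) : ℝ) ≤ (AA t P n j : ℝ) := by
    intro n j
    have : AA t P n (j + 1) ≤ AA t P n j := by
      unfold AA
      apply Finset.card_le_card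
      intro w hw
      rw [Finset.mem_filter] at hw ⊢
      refine ⟨hw.1, hw.2.1, hw.2.2.1, hw.2.2.2.1, ?_⟩
      intro q x hq hx hxm
      apply hw.2.2.2.2 q x hq hx
      push_cast at hxm ⊢
      omega
    exact_mod_cast this
  have k2 : ∀ n : ℕ, (G0 t P n : ℝ) ≤ max C 0 * Real.exp ((H - min ε (H / 2)) * n) := by
    intro n
    have h1 := hcon n
    calc (G0 t P n : ℝ) ≤ C * Real.exp ((H - ε) * n) := h1
      _ ≤ max C 0 * Real.exp ((H - ε) * n) :=
          mul_le_mul_of_nonneg_right (le_max_left _ _) (Real.exp_pos _).le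
      _ ≤ max C 0 * Real.exp ((H - min ε (H / 2)) * n) := by
          apply mul_le_mul_of_nonneg_left _ (le_max_right _ _)
          apply Real.exp_le_exp.mpr
          apply mul_le_mul_of_nonneg_right _ (Nat.cast_nonneg _)
          linarith
  have k3 : ∀ n j : ℕ, (AA t P n j : ℝ) ≤
      (G0 t P n : ℝ) + ∑ r ∈ Icc (j + 2) n, (r : ℝ) * (AA t P (n - r) (j + 1) : ℝ) := by
    intro n j
    have h1 := hTRM d m t P hP n j
    have h2 : ((AA t P n j : ℕ) : ℝ) ≤
        ((G0 t P n + ∑ r ∈ Icc (j + 2) n, r * AA t P (n - r) (j + 1) : ℕ) : ℝ) := by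
      exact_mod_cast h1
    push_cast at h2
    exact h2
  obtain ⟨C', hC'⟩ := hTRA (fun n j => (AA t P n j : ℝ)) (fun n => (G0 t P n : ℝ)) (max C 0)
    (H - min ε (H / 2)) (by linarith) (fun n j => Nat.cast_nonneg _) k1 k2 k3
  obtain ⟨n, hn⟩ := hR (min ε (H / 2)) hmin C'
  exact absurd (hC' n) (not_le.mpr hn)

theorem ex_in {d : ℕ} {m : ℕ → ℕ} (t : Tail d m) {n : ℕ} (w : Fin n → Fin d) (i : ℕ)
    (h : i < n) : ex t w (i : ℤ) = w ⟨i, h⟩ := by
  unfold ex
  rw [dif_pos ⟨by omega, by omega⟩]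
  congr 1

theorem Gd_Fr {d : ℕ} {m : ℕ → ℕ} (t : Tail d m) {n : ℕ} (w : Fin n → Fin d) (hw : Gd m w) :
    Fr m (ex t w) 0 n := by
  intro q x hq hx hxm
  obtain ⟨i, rfl⟩ := Int.eq_ofNat_of_zero_le hx
  have h1 := hw q i hq (by omega)
  unfold Per at h1
  push Not at h1
  obtain ⟨j, hj, hij, hjm, hne⟩ := h1
  refine ⟨j, by omega, by omega, ?_⟩
  have e1 : ((j : ℤ) + (q : ℤ)) = ((j + q : ℕ) : ℤ) := by push_cast; ring
  rw [e1, ex_in t w (j + q) hj, ex_in t w j (by omega)]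
  exact hne

/-- reversal -/
def rv {d n : ℕ} (w : Fin n → Fin d) : Fin n → Fin d := fun i => w ⟨n - 1 - i, by omega⟩

theorem rv_rv {d n : ℕ} (w : Fin n → Fin d) : rv (rv w) = w := by
  funext i
  unfold rv
  congr 1
  apply Fin.ext
  simp only
  omega

theorem ex_rv {d : ℕ} {m : ℕ → ℕ} (t : Tail d m) {n : ℕ} (w : Fin n → Fin d) (x : ℤ) :
    ex t (rv w) x = ex t w (n - 1 - x) := by
  unfold ex
  by_cases h : 0 ≤ x ∧ x < n
  · rw [dif_pos h, dif_pos ⟨by omega, by omega⟩]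
    unfold rv
    congr 1
    apply Fin.ext
    simp only
    omega
  · rw [dif_neg h, dif_neg (by omega)]
    by_cases h0 : x < 0
    · rw [if_pos h0, if_neg (by omega)]
      congr 2
      omega
    · rw [if_neg h0, if_pos (by omega)]
      congr 2
      omega

theorem Gd_rv {d : ℕ} {m : ℕ → ℕ} {n : ℕ} (w : Fin n → Fin d) (hw : Gd m w) :
    Gd m (rv w) := by
  intro q i hq hi hper
  apply hw q (n - i - m q) hq (by omega)
  intro j hj hij hjm
  have h1 := hper (n - 1 - (j + q)) (by omega) (by omega) (by omega)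
  unfold rv at h1
  have e1 : (⟨n - 1 - (n - 1 - (j + q) + q), by omega⟩ : Fin n) = ⟨j, by omega⟩ := by
    apply Fin.ext; simp only; omega
  have e2 : (⟨n - 1 - (n - 1 - (j + q)), by omega⟩ : Fin n) = ⟨j + q, hj⟩ := by
    apply Fin.ext; simp only; omega
  simp only at h1
  rw [e1, e2] at h1
  exact h1.symm

theorem St_rv {d : ℕ} {m : ℕ → ℕ} (t : Tail d m) {n : ℕ} (w : Fin n → Fin d)
    (hw : En t w) : St t (rv w) := by
  intro i h hi
  unfold rv
  obtain ⟨hY, h2⟩ := hw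
  have h3 := h2 (t.Y - 1 - i) (by omega) (by omega)
  rw [← h3]
  congr 1
  apply Fin.ext
  simp only
  omega

theorem En_rv {d : ℕ} {m : ℕ → ℕ} (t : Tail d m) {n : ℕ} (w : Fin n → Fin d)
    (hY : t.Y ≤ n) (hw : St t w) : En t (rv w) := by
  refine ⟨hY, ?_⟩
  intro i h hi
  unfold rv
  have h3 := hw (n - 1 - (n - t.Y + i)) (by omega) (by omega)
  simp only
  rw [h3]
  congr 1
  omega

theorem LG_rv {d : ℕ} {m : ℕ → ℕ} (t : Tail d m) {n : ℕ} (w : Fin n → Fin d)
    (hw : RG t w) : LG t (rv w) := by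
  intro j q x hq hx hxm
  obtain ⟨u, hu1, hu2, hu3⟩ := hw j q (n - x - m q) hq (by omega) (by omega)
  refine ⟨n - 1 - (u + q), by omega, by omega, ?_⟩
  rw [ex_rv, ex_rv]
  have e1 : (n : ℤ) - 1 - (n - 1 - (u + q) + q) = u := by ring
  have e2 : (n : ℤ) - 1 - (n - 1 - (u + q)) = u + q := by ring
  rw [e1, e2]
  exact hu3.symm

theorem ex_pre {d : ℕ} {m : ℕ → ℕ} (t : Tail d m) {n k : ℕ} (h : k ≤ n) (w : Fin n → Fin d)
    (x : ℤ) (hx : x < k) : ex t (fun i : Fin k => w ⟨i, by omega⟩) x = ex t w x := by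
  unfold ex
  by_cases h0 : 0 ≤ x
  · rw [dif_pos ⟨h0, hx⟩, dif_pos ⟨h0, by omega⟩]
  · rw [dif_neg (by omega), dif_neg (by omega), if_pos (by omega), if_pos (by omega)]

theorem LG_pre {d : ℕ} {m : ℕ → ℕ} (t : Tail d m) {n k : ℕ} (h : k ≤ n) (w : Fin n → Fin d)
    (hw : LG t w) : LG t (fun i : Fin k => w ⟨i, by omega⟩) := by
  intro j q x hq hx hxm
  obtain ⟨u, hu1, hu2, hu3⟩ := hw j q x hq hx (by omega)
  refine ⟨u, hu1, hu2, ?_⟩
  rw [ex_pre t h w _ (by omega), ex_pre t h w _ (by omega)]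
  exact hu3

theorem St_pre {d : ℕ} {m : ℕ → ℕ} (t : Tail d m) {n k : ℕ} (h : k ≤ n) (w : Fin n → Fin d)
    (hw : St t w) : St t (fun i : Fin k => w ⟨i, by omega⟩) := by
  intro i hi hiY
  exact hw i (by omega) hiY

open Classical in
theorem pf_LTR (hTRM : T_TRM) (hTRA : T_TRA) : T_LTR := by
  intro d m t H hH hNN
  -- step 1
  have h1 : Rich H (fun n => AA t (fun n w => St t w) n 0) := by
    intro ε hε C
    obtain ⟨n, hn⟩ := hNN ε hε C
    refine ⟨n, ?_⟩
    have e : (NN t n).card ≤ AA t (fun n w => St t w) n 0 := by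
      unfold NN AA
      apply Finset.card_le_card
      intro w hw
      rw [Finset.mem_filter] at hw ⊢
      refine ⟨hw.1, hw.2.1, hw.2.2.1, hw.2.2.2, ?_⟩
      have := Gd_Fr t w hw.2.1
      simpa using this
    calc C * Real.exp ((H - ε) * n) < ((NN t n).card : ℝ) := hn
      _ ≤ _ := by exact_mod_cast e
  have h2 := richAA hTRM hTRA t (fun n w => St t w)
    (fun n k h w hw => St_pre t h w hw) H hH h1
  -- step 2
  have h3 : Rich H (fun n => AA t (fun n w => St t w ∧ LG t w) n 0) := by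
    intro ε hε C
    obtain ⟨n, hn⟩ := h2 ε hε C
    refine ⟨n, ?_⟩
    have e : G0 t (fun n w => St t w) n ≤ AA t (fun n w => St t w ∧ LG t w) n 0 := by
      unfold G0 AA
      apply Finset.card_le_card_of_injOn rv
      · intro w hw
        simp only [Finset.coe_filter, Finset.mem_univ, true_and, Set.mem_ofPred_eq] at hw ⊢
        obtain ⟨g1, g2, g3, g4⟩ := hw
        refine ⟨Gd_rv w g1, ⟨St_rv t w g3, LG_rv t w g4⟩, En_rv t w g3.1 g2, ?_⟩
        have := Gd_Fr t (rv w) (Gd_rv w g1)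
        simpa using this
      · intro w _ w' _ hww
        have : rv (rv w) = rv (rv w') := congrArg rv hww
        rwa [rv_rv, rv_rv] at this
    calc C * Real.exp ((H - ε) * n) < (G0 t (fun n w => St t w) n : ℝ) := hn
      _ ≤ _ := by exact_mod_cast e
  have h4 := richAA hTRM hTRA t (fun n w => St t w ∧ LG t w)
    (fun n k h w hw => ⟨St_pre t h w hw.1, LG_pre t h w hw.2⟩) H hH h3
  intro ε hε C
  obtain ⟨n, hn⟩ := h4 ε hε C
  refine ⟨n, ?_⟩
  have e : G0 t (fun n w => St t w ∧ LG t w) n ≤ (PP t n).card := by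
    unfold G0 PP
    apply Finset.card_le_card
    intro w hw
    simp only [Finset.mem_filter, Finset.mem_univ, true_and] at hw ⊢
    exact ⟨hw.1, hw.2.1.1, hw.2.2.1, hw.2.1.2, hw.2.2.2⟩
  calc C * Real.exp ((H - ε) * n) < (G0 t (fun n w => St t w ∧ LG t w) n : ℝ) := hn
    _ ≤ _ := by exact_mod_cast e

end Pool.Agent.H65.PG
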