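import Pool.Agent.H25.PG.Targets

/-!
Row RB of the board pg_modules (MP_9198c9_nt): partitions and representations.
-/

set_option autoImplicit false

namespace Pool.Agent.H65.PG

open Pool.Agent.H55.PM Pool.Agent.H25.PG

theorem sum_toMultiset' (r : ℕ →₀ ℕ) :
    (Finsupp.toMultiset r).sum = r.sum (fun a k => k * a) := by
  rw [Finsupp.toMultiset_apply, Finsupp.sum, Multiset.sum_sum, Finsupp.sum]
  refine Finset.sum_congr rfl fun a _ => ?_
  rw [Multiset.sum_nsmul, Multiset.sum_singleton, smul_eq_mul]

theorem pf_RB : T_RB := by
  intro A M n hA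
  have himg : (fun p : Nat.Partition n => Multiset.toFinsupp p.parts) '' (PS A M n)
      = {r | Rep A M n r} := by
    ext r
    constructor
    · rintro ⟨p, hp, rfl⟩
      refine ⟨?_, ?_⟩
      · intro a ha
        simp only [Multiset.toFinsupp_apply] at ha ⊢
        exact hp a (Multiset.count_ne_zero.1 ha)
      · rw [← sum_toMultiset', Multiset.toFinsupp_toMultiset]
        exact p.parts_sum
    · rintro ⟨h1, h2⟩
      have hcount : ∀ a, (Finsupp.toMultiset r).count a = r a := fun a => by
        rw [Finsupp.count_toMultiset]
      refine ⟨⟨Finsupp.toMultiset r, ?_, ?_⟩, ?_, ?_⟩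
      · intro a ha
        rw [← Multiset.count_ne_zero, hcount] at ha
        exact hA a (h1 a ha).1
      · rw [sum_toMultiset']
        exact h2
      · intro a ha
        have ha' : a ∈ Finsupp.toMultiset r := ha
        rw [← Multiset.count_ne_zero, hcount] at ha'
        have h3 := h1 a ha'
        refine ⟨h3.1, ?_⟩
        change (Finsupp.toMultiset r).count a ∈ M
        rw [hcount]
        exact h3.2
      · change Multiset.toFinsupp (Finsupp.toMultiset r) = r
        rw [Finsupp.toMultiset_toFinsupp]
  have hinj : Function.Injective
      (fun p : Nat.Partition n => Multiset.toFinsupp p.parts) := by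
    intro p q hpq
    exact Nat.Partition.ext (Multiset.toFinsupp.injective hpq)
  constructor
  · rw [← himg]
    exact (Set.toFinite _).image _
  · rw [← himg, Set.ncard_image_of_injective _ hinj]
    rfl

end Pool.Agent.H65.PG
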